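import Pool.Agent.V7H14.QL.Main

/-!
# MP_e7fbd4_ag: a smooth category of infinite Quillen-Lichtenbaum dimension

The answer to the question is NO: there is a smooth `ℂ`-linear stable `∞`-category `𝒜` such that the comparison map
`K_n(𝒜, ℤ/2) → K^top_n(𝒜, ℤ/2)` is not bijective for arbitrarily large `n`, so `dim_QL 𝒜 = ∞`.

**The category.** Let `B = ⟨a, s, t | [s, t] = 1, [a, t a t⁻¹] = 1, s a s⁻¹ = a t a t⁻¹⟩` be the finitely presented
metabelian group of Baumslag. The group algebra `ℂ[B] = ℂ⟨x_1, …, x_n⟩ / (r_1, …, r_m)` is a finitely presented algebra.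
The semi-free dg-algebra `D = ℂ⟨x_1, …, x_n, y_1, …, y_m⟩` with `y_j` in degree one and `d y_j = r_j` is connective with
`H_0(D) = ℂ[B]`; it has finitely many cells, so `𝒜 = Perf(D)` is smooth (Toën and Vaquié).

**The proof.** By Goodwillie the relative `K`-theory of `D → H_0(D)` is rational, so `K_n(𝒜, ℤ/m) = K_n(ℂ[B], ℤ/m)`. The
Bott element acts bijectively on `K^top`, so if the comparison maps were bijective for `n ≥ d`, it would act bijectively
on `K_n(ℂ[B], ℤ/2)` for `n ≥ d`. The group `B` is solvable and torsion-free. So by the theorem of Wegner (the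
Farrell-Jones conjecture for solvable groups) `K(ℂ[B])` is the homology of `B` with coefficients in `K(ℂ)`, and by Suslin
the cofibre of the Bott element modulo two is the homology of `B` with coefficients in `ℤ/2`. So `H_n(B, ℤ/2)` would
vanish for large `n`. But this is not true (this is proved here for the group homology of Mathlib): for a field
`E` with `2 ^ r` elements and `x ∈ E`, `x ≠ 0, 1`, the group `B` acts on the affine line by `a ↦ z + 1`,
`s ↦ (1 + x) z`, `t ↦ x z`, which is a cocycle `u_x` with values in a character `χ_x`. The product of all `χ_x` is trivial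
(theorem of Wilson for `E`), so the product of the `2 ^ r - 2` cocycles `u_x` is a class with values in the trivial module
`E`, and its value on the torus spanned by the commuting elements `t ^ k a t ^ (-k)`, `0 ≤ k < 2 ^ r - 2`, is the determinant
of Vandermonde of the elements `x`, which is not zero.

The facts on the group `B` (finitely presented, solvable, torsion-free, homology in arbitrarily high degrees) are proved
without hypotheses. The categories and their `K`-theory are given by a structure `KTheory`, with the named published
theorems as hypotheses (`Facts`).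
-/

set_option autoImplicit false

namespace Pool.Agent.Results.MP_e7fbd4_ag.InfiniteDimensionH14

open Pool.Agent.V7H14.QL

/-- **A smooth category of infinite Quillen-Lichtenbaum dimension.** -/
theorem result :
    -- the group of Baumslag
    (FinitelyPresented B ∧ Group.IsSolvable B ∧ TorsionFree B ∧ ∀ N : ℕ, ∃ n, N ≤ n ∧ ¬ Subsingleton (H2 B n)) ∧
    -- the answer to the question
    ∀ T : KTheory, Facts T → ∃ A : T.Cat, T.Smooth A ∧ (∀ d : ℕ, ¬ QLDimLe T A d) ∧
      ∀ d : ℕ, ∃ n : ℤ, (d : ℤ) ≤ n ∧ ¬ Bij (T.comp A 2 n) :=
  ⟨⟨finitelyPresented_B, solvable_B, torsionFree_B, homology_B_unbounded⟩, fun _ hT => main hT⟩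

end Pool.Agent.Results.MP_e7fbd4_ag.InfiniteDimensionH14
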