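import Mathlib
import Pool.Agent.V7H36.QL.Main

/-!
# A smooth category with infinite Quillen-Lichtenbaum dimension

We show that the answer to Q1 is negative. Let `G` be the finitely presented group of Baumslag

`G = ⟨a, s, t | s t = t s, a a' = a' a, s a s⁻¹ = a a'⟩`, `a' = t a t⁻¹`,

let `X` be the finite `2`-complex of this presentation, `S = C_*(ΩX; ℂ)` the dg algebra of the chains of
the loop space of `X`, and `A` the category of the perfect `S`-modules (the compact objects of the
category of local systems on `X`).

1. `A` is smooth, because `X` is a finite complex.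
2. `S` is connective and `H_0(S) = ℂ[G]`. So, by a theorem of Goodwillie, `A` and `ℂ[G]` have the same
   algebraic and the same topological K-theory with finite coefficients. In this way *every* finitely
   presented group gives a smooth category; there is no finiteness condition on its homology.
3. For all even `k ≥ 0` and all prime numbers `p > k + 2` the comparison map
   `K_k(ℂ[G], ℤ/p) → K^top_k(ℂ[G], ℤ/p)` is not surjective. So the dimension of `A` is infinite.

Proof of 3. Let `O = ℤ[x]/(x ^ (k + 2) + x ^ (k + 1) + 1)`. In this ring `x` and `1 + x` are units of norm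
`1`. The elements `a_i = t ^ i a t ^ (-i)` of `G` commute (`el_comm`), and there are homomorphisms
`O → G → Γ = O ⋊ ℤ²` with `x ^ i ↦ a_i` and `a ↦ 1`, where `t` acts on `O` by `x` and `s` by `1 + x`; the
composition is the inclusion (`exists_homs`). The fundamental class of `O ≅ ℤ^(k+2)` is not zero in
`H_(k+2)(Γ; ℤ/p)`: for the action of `Γ` on `O` by affine maps, the function
`(g_0, …, g_n) ↦ det(g_1 0 - g_0 0, …, g_n 0 - g_0 0)` is a cocycle, and its value at the fundamental
class is `n! ≠ 0` (`cocycle`, `value`). It is the image of a class `y` of `K_(k+2)(ℂ[O], ℤ/p)`. Let `u` be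
the element of `K^top_k(ℂ[O], ℤ/p)` with `β u = y`. If the image of `u` in `K^top_k(ℂ[G], ℤ/p)` came from
the algebraic K-theory, then also the image in `K^top_k(ℂ[Γ], ℤ/p)`, and then the image of `y` in
`K_(k+2)(ℂ[Γ], ℤ/p)` would be a multiple of the Bott element `β`, because the comparison map for `Γ`
is injective in degree `k + 2`. But multiples of `β` have the image `0` in `H_(k+2)(Γ; ℤ/p)`
(`criterion`).

The K-theory enters by the data `Theory` and the known facts `IsTheory`: smoothness of `C_*(ΩX; ℂ)`,
Goodwillie's theorem, the Bott element, and the K-theory of the group algebras of `V` and `V ⋊ ℤ²` for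
free abelian groups `V` of finite rank (Quillen, Suslin).
-/

set_option autoImplicit false

open Function

namespace Pool.Agent.Results.MP_e7fbd4_ag.InfiniteDimensionH36

open Pool.Agent.V7H36.QL

/-- The comparison maps are not surjective in all even degrees `k ≥ 0`: not for the coefficients `ℤ/p`
with `p` a prime number larger than `k + 2`. -/
def NotSurjective (T : KData) (A : T.Cat) : Prop :=
  ∀ k p : ℕ, Even k → p.Prime → k + 2 < p → ¬ Surjective (T.cmp A p k)

/-- The Quillen-Lichtenbaum dimension is infinite. -/
def InfiniteQLDim (T : KData) (A : T.Cat) : Prop := ∀ d : ℤ, ¬ T.QLDimLE A d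

/-- **There is a smooth category with infinite Quillen-Lichtenbaum dimension.** -/
theorem result (T : Theory) (h : IsTheory T) :
    -- the category `A` of the perfect modules over `C_*(ΩX; ℂ)` is smooth
    T.Smooth (T.Perf (T.loop 3 rels)) ∧
    -- its Quillen-Lichtenbaum dimension is infinite
    InfiniteQLDim T.toKData (T.Perf (T.loop 3 rels)) ∧
    -- more precisely, the comparison map is not surjective in all even degrees
    NotSurjective T.toKData (T.Perf (T.loop 3 rels)) ∧
    -- the same for the group algebra
    InfiniteQLDim T.toKData (T.perf Baumslag) ∧ NotSurjective T.toKData (T.perf Baumslag) :=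
  ⟨h.smooth_loop 3 rels rels_finite, infinite_dim fun _ _ hk hp hkp => smooth_case h hk hp hkp,
    fun _ _ hk hp hkp => smooth_case h hk hp hkp,
    infinite_dim fun _ _ hk hp hkp => not_surjective h hk hp hkp,
    fun _ _ hk hp hkp => not_surjective h hk hp hkp⟩

end Pool.Agent.Results.MP_e7fbd4_ag.InfiniteDimensionH36
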